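import Pool.Agent.Q17.ML.Main
import Pool.Agent.Y802.GC.NF
import Pool.Agent.W215.FM.Gen

/-!
# The weak Fontaine-Mazur conjecture over abelian extensions of odd degree with few generators

Let `p` be a prime and let `K/F` be an abelian extension of number fields of odd degree prime to
`p`. Let `S` be a set of primes of `F`; the case `S = ∅` concerns unramified extensions. Suppose
that the abelian `p`-extensions of `K` unramified outside `S` have exponent dividing `p ^ e`, and
those of `F` have exponent dividing `p ^ (e - 1)` (for instance, the `p`-class group of `K` has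
exponent `p ^ e`, and that of `F` has smaller exponent; this is the case for `F = ℚ`). Suppose that
for every finite abelian `p`-extension of `K` unramified outside `S`, the group of the
`p ^ (e - 1)`-th powers in its Galois group is generated by `R` elements, where

* `R = 5` if `K/F` has degree three,
* `R = 4` if the degree is not divisible by `5`, and
* `R = 3` in general.

Then every continuous representation of `G_K`, of any dimension, over a Noetherian local ring `A` in
which `p` is regular of order `e0` (for instance a discrete valuation ring of characteristic `0` in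
which `p` has valuation `e0`), which is unramified outside `S` and trivial modulo the `j`-th power
of the maximal ideal, where `e * e0 ≤ j` and `e0 < (p - 1) * j`, is trivial. For instance, for
`A = ℤ_p`, `p` odd, it is enough that the representation is trivial modulo `p ^ e`.
-/

set_option autoImplicit false

open NumberField IsLocalRing

namespace Pool.Agent.Results.MP_ca71b5_nt.OddAbelianExtensions

/-- The inertia elements at the primes outside `S`: those elements of the absolute Galois group of
`F` which are in the inertia group at a maximal ideal `P` of the ring of all algebraic integers such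
that the prime of `F` below `P` is not in `S`. -/
def Inertia {F : Type} [Field F] (S : Set (Ideal (𝓞 F))) : Set Gal(AlgebraicClosure F/F) :=
  {τ | ∃ P : Ideal (𝓞 (AlgebraicClosure F)), P.IsMaximal ∧
    P.comap (algebraMap (𝓞 F) (𝓞 (AlgebraicClosure F))) ∉ S ∧
      ∀ x : 𝓞 (AlgebraicClosure F), τ • x - x ∈ P}

/-- `f` is a homomorphism from the subgroup `U` of the absolute Galois group of `F` to the finite
abelian `p`-group `E`, with open kernel and unramified outside `S`. -/
structure AbelianQuotient {F : Type} [Field F] (S : Set (Ideal (𝓞 F)))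
    (U : Subgroup Gal(AlgebraicClosure F/F)) (p : ℕ) (E : Type) [CommGroup E]
    (f : U →* E) : Prop where
  finite : Finite E
  pGroup : IsPGroup p E
  isOpen : IsOpen (f.ker : Set U)
  unramified : ∀ τ : U, (τ : Gal(AlgebraicClosure F/F)) ∈ Inertia S → f τ = 1

/-- `p ^ e` kills the Galois group of every finite abelian `p`-extension, unramified outside `S` (at
the finite primes), of the field fixed by `U`. -/
def AbelianExponent {F : Type} [Field F] (S : Set (Ideal (𝓞 F)))
    (U : Subgroup Gal(AlgebraicClosure F/F)) (p e : ℕ) : Prop :=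
  ∀ (E : Type) [CommGroup E] (f : U →* E), AbelianQuotient S U p E f → ∀ g, f g ^ (p ^ e) = 1

/-- If `E` is the Galois group of a finite abelian `p`-extension, unramified outside `S`, of the
field fixed by `U`, then there are at most `p ^ R` elements of the form `x ^ (p ^ e')` in `E`. If
`p ^ (e' + 1)` kills `E`, this says that the group of these elements has `R` generators. -/
def Generators {F : Type} [Field F] (S : Set (Ideal (𝓞 F)))
    (U : Subgroup Gal(AlgebraicClosure F/F)) (p e' R : ℕ) : Prop :=
  ∀ (E : Type) [CommGroup E] (f : U →* E), AbelianQuotient S U p E f →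
    Nat.card {x : E // ∃ g, f g ^ (p ^ e') = x} ≤ p ^ R

/-- The topology of the local ring `A` is the adic topology, and `p` is regular of order `e0 ≥ 1`: it
lies in the `e0`-th power of the maximal ideal, and its image in the graded ring of `A` is not a
zero divisor. -/
structure Coefficients (A : Type) [CommRing A] [IsLocalRing A] [TopologicalSpace A] (p e0 : ℕ) :
    Prop where
  adic : IsAdic (maximalIdeal A)
  pos : 1 ≤ e0
  mem : (p : A) ∈ maximalIdeal A ^ e0
  regular : ∀ k : ℕ, ∀ x ∈ maximalIdeal A ^ k,
    (p : A) * x ∈ maximalIdeal A ^ (k + e0 + 1) → x ∈ maximalIdeal A ^ (k + 1)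

/-- `ρ` is unramified outside `S` and trivial modulo the `j`-th power of the maximal ideal. -/
structure NearlyTrivial {F : Type} [Field F] (S : Set (Ideal (𝓞 F)))
    (U : Subgroup Gal(AlgebraicClosure F/F)) {A : Type} [CommRing A] [IsLocalRing A] {n : ℕ}
    (j : ℕ) (ρ : U →* GL (Fin n) A) : Prop where
  unramified : ∀ τ : U, (τ : Gal(AlgebraicClosure F/F)) ∈ Inertia S → ρ τ = 1
  trivial_mod : ∀ (g : U) (a b : Fin n),
    ((ρ g : Matrix (Fin n) (Fin n) A) - 1) a b ∈ maximalIdeal A ^ j

/-- The number of generators which is allowed for an extension of degree `d`. -/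
def bound (d : ℕ) : ℕ := if d = 3 then 5 else if Nat.Coprime d 10 then 4 else 3

theorem main (p : ℕ) [Fact p.Prime] (F : Type) [Field F] [NumberField F]
    (K : IntermediateField F (AlgebraicClosure F)) [FiniteDimensional F K] [IsGalois F K]
    (hab : ∀ σ τ : Gal(K/F), σ * τ = τ * σ) (hodd : Odd (Module.finrank F K))
    (hK : ¬ p ∣ Module.finrank F K) (S : Set (Ideal (𝓞 F))) (e : ℕ)
    (he : AbelianExponent S K.fixingSubgroup p e) (heF : AbelianExponent S ⊤ p (e - 1))
    (hR : Generators S K.fixingSubgroup p (e - 1) (bound (Module.finrank F K)))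
    (A : Type) [CommRing A] [IsLocalRing A] [IsNoetherianRing A] [TopologicalSpace A]
    (e0 : ℕ) (hA : Coefficients A p e0) (n j : ℕ) (hj : e * e0 ≤ j) (hj1 : e0 < (p - 1) * j)
    (ρ : K.fixingSubgroup →* GL (Fin n) A) (hρ : Continuous ρ)
    (h : NearlyTrivial S K.fixingSubgroup j ρ) : ∀ g, ρ g = 1 := by
  obtain ⟨hur, htriv⟩ := h
  obtain ⟨hA, he0, hp1, hp2⟩ := hA
  have hp : Pool.Agent.W569.UF.RegOrd A p e0 := ⟨hp1, hp2⟩
  have hcG : CompactSpace Gal(AlgebraicClosure F/F) := inferInstance
  have hopen : IsOpen (K.fixingSubgroup : Set Gal(AlgebraicClosure F/F)) :=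
    IntermediateField.fixingSubgroup_isOpen K
  have hfi : Finite (Gal(AlgebraicClosure F/F) ⧸ K.fixingSubgroup) :=
    Subgroup.quotient_finite_of_isOpen _ hopen
  have hcH : CompactSpace K.fixingSubgroup := by
    have h1 : IsClosed (K.fixingSubgroup : Set Gal(AlgebraicClosure F/F)) :=
      Subgroup.isClosed_of_isOpen _ hopen
    exact isCompact_iff_compactSpace.1 h1.isCompact
  have hj2 : 1 ≤ j := by
    rcases Nat.eq_zero_or_pos j with h0 | h0
    · rw [h0, mul_zero] at hj1
      omega
    · exact h0
  have hidx : Nat.card (Gal(AlgebraicClosure F/F) ⧸ K.fixingSubgroup) = Module.finrank F K := by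
    rw [← Subgroup.index_eq_card, ← IntermediateField.finrank_eq_fixingSubgroup_index]
  have habQ : ∀ x y : Gal(AlgebraicClosure F/F) ⧸ K.fixingSubgroup, x * y = y * x := by
    intro x y
    obtain ⟨σ, rfl⟩ := QuotientGroup.mk'_surjective _ x
    obtain ⟨τ, rfl⟩ := QuotientGroup.mk'_surjective _ y
    rw [← map_mul, ← map_mul]
    refine QuotientGroup.eq.2 ?_
    rw [← IntermediateField.restrictNormalHom_ker, MonoidHom.mem_ker, map_mul, map_inv, map_mul,
      map_mul, inv_mul_eq_one]
    exact hab _ _
  refine Pool.Agent.Q17.ML.rank_main (H := K.fixingSubgroup) (p := p) (e := e) hopen habQ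
    (by rw [hidx]; exact hodd) (by rw [hidx]; exact hK) hA he0 hp (Inertia S) ?_ ?_ ?_
    (Ur := {τ | (τ : Gal(AlgebraicClosure F/F)) ∈ Inertia S}) (fun h => Iff.rfl)
    (fun E _ hE hpE f hf hu g => he E f ⟨hE, hpE, hf, hu⟩ g)
    (fun E _ hE hpE f hf hu => by
      rw [hidx]
      exact hR E f ⟨hE, hpE, hf, hu⟩) hj hj2 hj1 ρ hρ (fun τ hτ => hur τ hτ) htriv
  · rintro τ ⟨P, hP, hPS, hτ⟩ m
    refine ⟨P, hP, hPS, ?_⟩
    induction m with
    | zero =>
      intro x
      rw [pow_zero, one_smul, sub_self]
      exact P.zero_mem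
    | succ m ih =>
      intro x
      rw [pow_succ, mul_smul]
      have h5 := P.add_mem (ih (τ • x)) (hτ x)
      rwa [sub_add_sub_cancel] at h5
  · rintro τ ⟨P, hP, hPS, hτ⟩ σ
    obtain ⟨P', hP', hc, hi⟩ := Pool.Agent.Y802.GC.conj_ideal' σ P hP
    exact ⟨P', hP', hc ▸ hPS, hi τ hτ⟩
  · intro E _ hE hpE f hf hu g
    have hct : Continuous (Subtype.val : (⊤ : Subgroup Gal(AlgebraicClosure F/F)) →
      Gal(AlgebraicClosure F/F)) := continuous_subtype_val
    exact heF E (f.comp (⊤ : Subgroup Gal(AlgebraicClosure F/F)).subtype)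
      ⟨hE, hpE, hf.preimage hct, fun τ hτ => hu τ hτ⟩ ⟨g, Subgroup.mem_top g⟩

/-- the hypothesis on `F` for `F = ℚ` -/
theorem rat (p e' : ℕ) : AbelianExponent (F := ℚ) ∅ ⊤ p e' := by
  intro E _ f hf g
  obtain ⟨hE, hpE, hfo, hu⟩ := hf
  let f' : Gal(AlgebraicClosure ℚ/ℚ) →* E := f.comp (Subgroup.topEquiv.symm).toMonoidHom
  have hc : Continuous (fun g : Gal(AlgebraicClosure ℚ/ℚ) =>
      (⟨g, Subgroup.mem_top g⟩ : (⊤ : Subgroup Gal(AlgebraicClosure ℚ/ℚ)))) :=
    continuous_id.subtype_mk _
  have h1 := Pool.Agent.W215.FM.main E f' (hfo.preimage hc)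
    (fun P hP τ hτ => hu ⟨τ, Subgroup.mem_top τ⟩ ⟨P, hP, Set.notMem_empty _, hτ⟩) g
  have h2 : f g = 1 := h1
  rw [h2, one_pow]

/-- The theorem for the number field `F`. -/
def Rigid (F : Type) [Field F] [NumberField F] (p : ℕ) : Prop :=
  ∀ (K : IntermediateField F (AlgebraicClosure F)) [FiniteDimensional F K] [IsGalois F K],
    (∀ σ τ : Gal(K/F), σ * τ = τ * σ) → Odd (Module.finrank F K) → ¬ p ∣ Module.finrank F K →
    ∀ (S : Set (Ideal (𝓞 F))) (e : ℕ), AbelianExponent S K.fixingSubgroup p e →
      AbelianExponent S ⊤ p (e - 1) →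
      Generators S K.fixingSubgroup p (e - 1) (bound (Module.finrank F K)) →
    ∀ (A : Type) [CommRing A] [IsLocalRing A] [IsNoetherianRing A] [TopologicalSpace A]
      (e0 n j : ℕ), Coefficients A p e0 → e * e0 ≤ j → e0 < (p - 1) * j →
    ∀ ρ : K.fixingSubgroup →* GL (Fin n) A, Continuous ρ →
      NearlyTrivial S K.fixingSubgroup j ρ → ∀ g, ρ g = 1

/-- **Main theorem**; for `F = ℚ` and `S = ∅` the hypothesis on `F` is satisfied. -/
theorem result (p : ℕ) [Fact p.Prime] :
    (∀ (F : Type) [Field F] [NumberField F], Rigid F p) ∧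
      ∀ e' : ℕ, AbelianExponent (F := ℚ) ∅ ⊤ p e' :=
  ⟨fun F _ _ K _ _ hab hodd hK S e he heF hR A _ _ _ _ e0 n j hA hj hj1 ρ hρ h =>
    main p F K hab hodd hK S e he heF hR A e0 hA n j hj hj1 ρ hρ h, rat p⟩

end Pool.Agent.Results.MP_ca71b5_nt.OddAbelianExtensions
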