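import Pool.Agent.Q17.GT.Main
import Pool.Agent.Q17.GT.Grp
import Pool.Agent.Y802.GC.NF
import Pool.Agent.W215.FM.Gen

/-!
# The weak unramified Fontaine-Mazur conjecture for three generators and arbitrary Galois groups

Let `K/F` be a finite Galois extension of number fields with Galois group `Δ`, let `p` be a prime
and let `S` be a set of primes of `F`; the case `S = ∅` concerns unramified extensions. Suppose that
the abelian `p`-extensions of `K` unramified outside `S` have exponent dividing `p ^ e`, and that for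
each of them the group of the `p ^ (e - 1)`-th powers in its Galois group `E` has at most `p ^ 3`
elements (for `S = ∅`: the group `p ^ (e - 1) Cl_p(K)` has rank at most three). Let `ρ` be a
continuous representation of `G_K`, of any dimension, over a Noetherian local ring `A` in which `p`
is regular of order `e0` (for instance `ℤ_p`), unramified outside `S` and trivial modulo the `j`-th
power of the maximal ideal, where `e * e0 ≤ j` and `e0 < (p - 1) * j`. Then `ρ` is trivial in each of
the following cases.

* There is an element `σ` of `G_F` such that `σ - 1` is surjective on the groups `p ^ (e - 1) E`.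
* `p` does not divide the order of `Δ`, the abelian `p`-extensions of `F` unramified outside `S` have
  exponent dividing `p ^ (e - 1)` (this is so for `F = ℚ`, `S = ∅`), and no quotient of `Δ` is a
  dihedral group of order at least four, `A_4`, `S_4` or `A_5`.

The second condition on `Δ` is expressed without the classification of small groups: `Δ` has no
quotient of order `> 2` with a subgroup of index two outside of which all squares are trivial, and no
quotient of order `12`, `24` or `60` with trivial centre. It holds for all cyclic groups, all groups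
of odd order, and all simple groups of order different from `12`, `24` and `60`.
-/

set_option autoImplicit false

open NumberField IsLocalRing

namespace Pool.Agent.Results.MP_ca71b5_nt.ThreeGenerators

/-- The inertia elements at the primes outside `S`: those elements of the absolute Galois group of
`F` which are in the inertia group at a maximal ideal `P` of the ring of all algebraic integers such
that the prime of `F` below `P` is not in `S`. -/
def Inertia {F : Type} [Field F] (S : Set (Ideal (𝓞 F))) : Set Gal(AlgebraicClosure F/F) :=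
  {τ | ∃ P : Ideal (𝓞 (AlgebraicClosure F)), P.IsMaximal ∧
    P.comap (algebraMap (𝓞 F) (𝓞 (AlgebraicClosure F))) ∉ S ∧
      ∀ x : 𝓞 (AlgebraicClosure F), τ • x - x ∈ P}

/-- `f` is a homomorphism from the subgroup `U` of the absolute Galois group of `F` to the finite
abelian `p`-group `E`, with open kernel and unramified outside `S` (at the finite primes). -/
structure AbelianQuotient {F : Type} [Field F] (S : Set (Ideal (𝓞 F)))
    (U : Subgroup Gal(AlgebraicClosure F/F)) (p : ℕ) (E : Type) [CommGroup E]
    (f : U →* E) : Prop where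
  finite : Finite E
  pGroup : IsPGroup p E
  isOpen : IsOpen (f.ker : Set U)
  unramified : ∀ τ : U, (τ : Gal(AlgebraicClosure F/F)) ∈ Inertia S → f τ = 1

/-- `p ^ e` kills the Galois group of every finite abelian `p`-extension, unramified outside `S` (at
the finite primes), of the field fixed by `U`. -/
def AbelianExponent {F : Type} [Field F] (S : Set (Ideal (𝓞 F)))
    (U : Subgroup Gal(AlgebraicClosure F/F)) (p e : ℕ) : Prop :=
  ∀ (E : Type) [CommGroup E] (f : U →* E), AbelianQuotient S U p E f → ∀ g, f g ^ (p ^ e) = 1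

/-- If `E` is the Galois group of a finite abelian `p`-extension, unramified outside `S`, of the
field fixed by `U`, then there are at most `p ^ R` elements of the form `x ^ (p ^ e')` in `E`. If
`p ^ (e' + 1)` kills `E`, this says that the group of these elements has `R` generators. -/
def Generators {F : Type} [Field F] (S : Set (Ideal (𝓞 F)))
    (U : Subgroup Gal(AlgebraicClosure F/F)) (p e' R : ℕ) : Prop :=
  ∀ (E : Type) [CommGroup E] (f : U →* E), AbelianQuotient S U p E f →
    Nat.card {x : E // ∃ g, f g ^ (p ^ e') = x} ≤ p ^ R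

/-- The extension of `K` defined by `f` is Galois over `F`: the kernel of `f` is stable. -/
def Stable {F : Type} [Field F] [CharZero F] {K : IntermediateField F (AlgebraicClosure F)}
    [IsGalois F K] {E : Type} [CommGroup E] (f : K.fixingSubgroup →* E) : Prop :=
  ∀ (τ : Gal(AlgebraicClosure F/F)) (g : K.fixingSubgroup),
    f g = 1 → f (MulAut.conjNormal τ g) = 1

/-- `σ - 1` is surjective on the group of the `p ^ e'`-th powers in the image of `f`. -/
def Moves {F : Type} [Field F] [CharZero F] {K : IntermediateField F (AlgebraicClosure F)}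
    [IsGalois F K] (p e' : ℕ) (σ : Gal(AlgebraicClosure F/F)) {E : Type} [CommGroup E]
    (f : K.fixingSubgroup →* E) : Prop :=
  ∀ g, ∃ h, f g ^ (p ^ e') = f (MulAut.conjNormal σ h * h⁻¹) ^ (p ^ e')

/-- Some element `σ` of the absolute Galois group of `F` is such that `σ - 1` is surjective on the
group of the `p ^ e'`-th powers in `E`, for every Galois group `E` of a finite abelian
`p`-extension of `K` which is unramified outside `S` and Galois over `F`. (As these groups are
finite, it is the same that `σ` has no fixed point other than `1` in them.) -/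
def MovedBy {F : Type} [Field F] [CharZero F] (S : Set (Ideal (𝓞 F)))
    (K : IntermediateField F (AlgebraicClosure F)) [IsGalois F K] (p e' : ℕ) : Prop :=
  ∃ σ : Gal(AlgebraicClosure F/F), ∀ (E : Type) [CommGroup E] (f : K.fixingSubgroup →* E),
    AbelianQuotient S K.fixingSubgroup p E f → Stable f → Moves p e' σ f

/-- The topology of the local ring `A` is the adic topology, and `p` is regular of order `e0 ≥ 1`: it
lies in the `e0`-th power of the maximal ideal, and its image in the graded ring of `A` is not a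
zero divisor. -/
structure Coefficients (A : Type) [CommRing A] [IsLocalRing A] [TopologicalSpace A] (p e0 : ℕ) :
    Prop where
  adic : IsAdic (maximalIdeal A)
  pos : 1 ≤ e0
  mem : (p : A) ∈ maximalIdeal A ^ e0
  regular : ∀ k : ℕ, ∀ x ∈ maximalIdeal A ^ k,
    (p : A) * x ∈ maximalIdeal A ^ (k + e0 + 1) → x ∈ maximalIdeal A ^ (k + 1)

/-- `ρ` is unramified outside `S` and trivial modulo the `j`-th power of the maximal ideal. -/
structure NearlyTrivial {F : Type} [Field F] (S : Set (Ideal (𝓞 F)))
    (U : Subgroup Gal(AlgebraicClosure F/F)) {A : Type} [CommRing A] [IsLocalRing A] {n : ℕ}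
    (j : ℕ) (ρ : U →* GL (Fin n) A) : Prop where
  unramified : ∀ τ : U, (τ : Gal(AlgebraicClosure F/F)) ∈ Inertia S → ρ τ = 1
  trivial_mod : ∀ (g : U) (a b : Fin n),
    ((ρ g : Matrix (Fin n) (Fin n) A) - 1) a b ∈ maximalIdeal A ^ j

/-- No quotient `Δ / N` of order greater than two has a subgroup `C / N` of index two such that all
elements outside `C / N` have square one (so no quotient is a dihedral group of order at least
four). -/
def NoDihedralQuotient (Δ : Type) [Group Δ] : Prop :=
  ∀ N C : Subgroup Δ, N.Normal → N ≤ C → C.index = 2 → (∀ g, g ∉ C → g * g ∈ N) → N = C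

/-- Every quotient `Δ / N` of order `12`, `24` or `60` has a nontrivial centre (so no quotient is
isomorphic to `A_4`, `S_4` or `A_5`). -/
def NoPolyhedralQuotient (Δ : Type) [Group Δ] : Prop :=
  ∀ N : Subgroup Δ, N.Normal → (N.index = 12 ∨ N.index = 24 ∨ N.index = 60) →
    ∃ z, z ∉ N ∧ ∀ g, g * z * g⁻¹ * z⁻¹ ∈ N

/-- The hypothesis on the abelian extensions of `K`. -/
def Bounds {F : Type} [Field F] (S : Set (Ideal (𝓞 F)))
    (K : IntermediateField F (AlgebraicClosure F)) (p e : ℕ) : Prop :=
  AbelianExponent S K.fixingSubgroup p e ∧ Generators S K.fixingSubgroup p (e - 1) 3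

/-- The hypothesis on the Galois group of `K/F` in (2). -/
def GaloisCondition {F : Type} [Field F] (K : IntermediateField F (AlgebraicClosure F))
    (p : ℕ) : Prop :=
  ¬ p ∣ Module.finrank F K ∧ NoDihedralQuotient Gal(K/F) ∧ NoPolyhedralQuotient Gal(K/F)

/-- The conclusion for the extension `K` of `F`: every continuous `ρ` over every `A` which is
unramified outside `S` and trivial modulo the `j`-th power of the maximal ideal, where
`e * e0 ≤ j` and `e0 < (p - 1) * j`, is trivial. -/
def AllTrivial {F : Type} [Field F] (S : Set (Ideal (𝓞 F)))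
    (K : IntermediateField F (AlgebraicClosure F)) (p e : ℕ) : Prop :=
  ∀ (A : Type) [CommRing A] [IsLocalRing A] [IsNoetherianRing A] [TopologicalSpace A]
    (e0 n j : ℕ), Coefficients A p e0 → e * e0 ≤ j → e0 < (p - 1) * j →
  ∀ ρ : K.fixingSubgroup →* GL (Fin n) A, Continuous ρ →
    NearlyTrivial S K.fixingSubgroup j ρ → ∀ g, ρ g = 1

theorem moved (p : ℕ) [Fact p.Prime] (F : Type) [Field F] [NumberField F]
    (K : IntermediateField F (AlgebraicClosure F)) [FiniteDimensional F K] [IsGalois F K]
    (S : Set (Ideal (𝓞 F))) (e : ℕ) (he : AbelianExponent S K.fixingSubgroup p e)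
    (hR : Generators S K.fixingSubgroup p (e - 1) 3) (hm : MovedBy S K p (e - 1)) :
    AllTrivial S K p e := by
  intro A _ _ _ _ e0 n j hA hj hj1 ρ hρ h
  obtain ⟨hur, htriv⟩ := h
  obtain ⟨hA, he0, hp1, hp2⟩ := hA
  have hp : Pool.Agent.W569.UF.RegOrd A p e0 := ⟨hp1, hp2⟩
  have hcG : CompactSpace Gal(AlgebraicClosure F/F) := inferInstance
  have hopen : IsOpen (K.fixingSubgroup : Set Gal(AlgebraicClosure F/F)) :=
    IntermediateField.fixingSubgroup_isOpen K
  have hfi : Finite (Gal(AlgebraicClosure F/F) ⧸ K.fixingSubgroup) :=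
    Subgroup.quotient_finite_of_isOpen _ hopen
  have hcH : CompactSpace K.fixingSubgroup := by
    have h1 : IsClosed (K.fixingSubgroup : Set Gal(AlgebraicClosure F/F)) :=
      Subgroup.isClosed_of_isOpen _ hopen
    exact isCompact_iff_compactSpace.1 h1.isCompact
  have hj2 : 1 ≤ j := by
    rcases Nat.eq_zero_or_pos j with h0 | h0
    · rw [h0, mul_zero] at hj1
      omega
    · exact h0
  obtain ⟨σ, hσ⟩ := hm
  refine Pool.Agent.Q17.GT.moving (H := K.fixingSubgroup) (p := p) (e := e) hA he0 hp
    {τ | (τ : Gal(AlgebraicClosure F/F)) ∈ Inertia S} ?_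
    (fun E _ hE hpE f hf hu g => he E f ⟨hE, hpE, hf, hu⟩ g)
    (fun E _ hE hpE f hf hu => hR E f ⟨hE, hpE, hf, hu⟩)
    ⟨σ, fun E _ hE hpE f hf hu hc g => hσ E f ⟨hE, hpE, hf, hu⟩ hc g⟩ hj hj2 hj1 ρ hρ
    (fun τ hτ => hur τ hτ) htriv
  rintro σ τ ⟨P, hP, hPS, hτ⟩
  obtain ⟨P', hP', hc, hi⟩ := Pool.Agent.Y802.GC.conj_ideal' σ P hP
  rw [Set.mem_ofPred_eq, MulAut.conjNormal_apply]
  exact ⟨P', hP', hc ▸ hPS, hi τ hτ⟩

theorem main (p : ℕ) [Fact p.Prime] (F : Type) [Field F] [NumberField F]
    (K : IntermediateField F (AlgebraicClosure F)) [FiniteDimensional F K] [IsGalois F K]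
    (hK : ¬ p ∣ Module.finrank F K) (hG1 : NoDihedralQuotient Gal(K/F))
    (hG2 : NoPolyhedralQuotient Gal(K/F)) (S : Set (Ideal (𝓞 F))) (e : ℕ)
    (he : AbelianExponent S K.fixingSubgroup p e) (heF : AbelianExponent S ⊤ p (e - 1))
    (hR : Generators S K.fixingSubgroup p (e - 1) 3) : AllTrivial S K p e := by
  intro A _ _ _ _ e0 n j hA hj hj1 ρ hρ h
  obtain ⟨hur, htriv⟩ := h
  obtain ⟨hA, he0, hp1, hp2⟩ := hA
  have hp : Pool.Agent.W569.UF.RegOrd A p e0 := ⟨hp1, hp2⟩
  have hcG : CompactSpace Gal(AlgebraicClosure F/F) := inferInstance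
  have hopen : IsOpen (K.fixingSubgroup : Set Gal(AlgebraicClosure F/F)) :=
    IntermediateField.fixingSubgroup_isOpen K
  have hfi : Finite (Gal(AlgebraicClosure F/F) ⧸ K.fixingSubgroup) :=
    Subgroup.quotient_finite_of_isOpen _ hopen
  have hcH : CompactSpace K.fixingSubgroup := by
    have h1 : IsClosed (K.fixingSubgroup : Set Gal(AlgebraicClosure F/F)) :=
      Subgroup.isClosed_of_isOpen _ hopen
    exact isCompact_iff_compactSpace.1 h1.isCompact
  have hj2 : 1 ≤ j := by
    rcases Nat.eq_zero_or_pos j with h0 | h0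
    · rw [h0, mul_zero] at hj1
      omega
    · exact h0
  have hidx : Nat.card (Gal(AlgebraicClosure F/F) ⧸ K.fixingSubgroup) = Module.finrank F K := by
    rw [← Subgroup.index_eq_card, ← IntermediateField.finrank_eq_fixingSubgroup_index]
  -- the Galois group is the quotient
  obtain ⟨π, hπ⟩ : ∃ π : Gal(K/F) →* Gal(AlgebraicClosure F/F) ⧸ K.fixingSubgroup,
      Function.Surjective π := by
    let φ : Gal(AlgebraicClosure F/F) →* Gal(K/F) := AlgEquiv.restrictNormalHom K
    have hφ : Function.Surjective φ := AlgEquiv.restrictNormalHom_surjective _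
    have hker : φ.ker = K.fixingSubgroup := IntermediateField.restrictNormalHom_ker K
    let ε := (QuotientGroup.quotientKerEquivOfSurjective φ hφ).symm
    exact ⟨(QuotientGroup.quotientMulEquivOfEq hker).toMonoidHom.comp ε.toMonoidHom,
      (QuotientGroup.quotientMulEquivOfEq hker).surjective.comp ε.surjective⟩
  have hD : Pool.Agent.Q17.GT.NoDih Gal(K/F) := hG1
  have hP : Pool.Agent.Q17.GT.NoPol Gal(K/F) := hG2
  refine Pool.Agent.Q17.GT.galois (H := K.fixingSubgroup) (p := p) (e := e) hopen
    (by rw [hidx]; exact hK) (hD.of_surj π hπ) (hP.of_surj π hπ) hA he0 hp (Inertia S) ?_ ?_ ?_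
    (Ur := {τ | (τ : Gal(AlgebraicClosure F/F)) ∈ Inertia S}) (fun h => Iff.rfl)
    (fun E _ hE hpE f hf hu g => he E f ⟨hE, hpE, hf, hu⟩ g)
    (fun E _ hE hpE f hf hu => hR E f ⟨hE, hpE, hf, hu⟩) hj hj2 hj1 ρ hρ
    (fun τ hτ => hur τ hτ) htriv
  · rintro τ ⟨P, hP, hPS, hτ⟩ m
    refine ⟨P, hP, hPS, ?_⟩
    induction m with
    | zero =>
      intro x
      rw [pow_zero, one_smul, sub_self]
      exact P.zero_mem
    | succ m ih =>
      intro x
      rw [pow_succ, mul_smul]
      have h5 := P.add_mem (ih (τ • x)) (hτ x)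
      rwa [sub_add_sub_cancel] at h5
  · rintro τ ⟨P, hP, hPS, hτ⟩ σ
    obtain ⟨P', hP', hc, hi⟩ := Pool.Agent.Y802.GC.conj_ideal' σ P hP
    exact ⟨P', hP', hc ▸ hPS, hi τ hτ⟩
  · intro E _ hE hpE f hf hu g
    have hct : Continuous (Subtype.val : (⊤ : Subgroup Gal(AlgebraicClosure F/F)) →
      Gal(AlgebraicClosure F/F)) := continuous_subtype_val
    exact heF E (f.comp (⊤ : Subgroup Gal(AlgebraicClosure F/F)).subtype)
      ⟨hE, hpE, hf.preimage hct, fun τ hτ => hu τ hτ⟩ ⟨g, Subgroup.mem_top g⟩

/-- the hypothesis on `F` for `F = ℚ` -/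
theorem rat (p e' : ℕ) : AbelianExponent (F := ℚ) ∅ ⊤ p e' := by
  intro E _ f hf g
  obtain ⟨hE, hpE, hfo, hu⟩ := hf
  let f' : Gal(AlgebraicClosure ℚ/ℚ) →* E := f.comp (Subgroup.topEquiv.symm).toMonoidHom
  have hc : Continuous (fun g : Gal(AlgebraicClosure ℚ/ℚ) =>
      (⟨g, Subgroup.mem_top g⟩ : (⊤ : Subgroup Gal(AlgebraicClosure ℚ/ℚ)))) :=
    continuous_id.subtype_mk _
  have h1 := Pool.Agent.W215.FM.main E f' (hfo.preimage hc)
    (fun P hP τ hτ => hu ⟨τ, Subgroup.mem_top τ⟩ ⟨P, hP, Set.notMem_empty _, hτ⟩) g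
  have h2 : f g = 1 := h1
  rw [h2, one_pow]

/-- (1) An element `σ` without fixed points. -/
def MovedCase (p : ℕ) : Prop :=
  ∀ (F : Type) [Field F] [NumberField F] (K : IntermediateField F (AlgebraicClosure F))
    [FiniteDimensional F K] [IsGalois F K] (S : Set (Ideal (𝓞 F))) (e : ℕ),
    Bounds S K p e → MovedBy S K p (e - 1) → AllTrivial S K p e

/-- (2) The condition on the Galois group. -/
def GroupCase (p : ℕ) : Prop :=
  ∀ (F : Type) [Field F] [NumberField F] (K : IntermediateField F (AlgebraicClosure F))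
    [FiniteDimensional F K] [IsGalois F K] (S : Set (Ideal (𝓞 F))) (e : ℕ),
    Bounds S K p e → AbelianExponent S ⊤ p (e - 1) → GaloisCondition K p → AllTrivial S K p e

/-- (4) Examples of groups which satisfy the condition in (2): cyclic groups, groups of odd order,
simple groups of order different from `12`, `24` and `60`. -/
def Examples : Prop :=
  ∀ (Δ : Type) [Group Δ] [Finite Δ], (IsCyclic Δ ∨ Odd (Nat.card Δ) ∨ (IsSimpleGroup Δ ∧
    Nat.card Δ ≠ 12 ∧ Nat.card Δ ≠ 24 ∧ Nat.card Δ ≠ 60)) →
      NoDihedralQuotient Δ ∧ NoPolyhedralQuotient Δ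

/-- **Main theorem.** (1) and (2) are the two criteria, (3) is the hypothesis on `F` in (2) for
`F = ℚ` and `S = ∅`, and (4) contains examples for the hypothesis on the group. -/
theorem result (p : ℕ) [Fact p.Prime] :
    MovedCase p ∧ GroupCase p ∧ (∀ e' : ℕ, AbelianExponent (F := ℚ) ∅ ⊤ p e') ∧ Examples := by
  refine ⟨fun F _ _ K _ _ S e hB hm => moved p F K S e hB.1 hB.2 hm,
    fun F _ _ K _ _ S e hB heF hG => main p F K hG.1 hG.2.1 hG.2.2 S e hB.1 heF hB.2, rat p, ?_⟩
  intro Δ _ _ h
  rcases h with h | h | ⟨h1, h2⟩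
  · exact Pool.Agent.Q17.GT.cyclic
  · exact Pool.Agent.Q17.GT.odd h
  · exact Pool.Agent.Q17.GT.simple h2

end Pool.Agent.Results.MP_ca71b5_nt.ThreeGenerators
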