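import Pool.Agent.Q17.FL.Tr
import Pool.Agent.W215.FM.Gen

/-!
# Two-dimensional representations with two residual characters, unramified over `K`

Let `F` be a number field without unramified extensions of degree `p` (for instance `F = ℚ`) and
`K/F` a finite Galois extension of degree prime to `p` (`K` has finite class number, so the
unramified abelian `p`-extensions of `K` have finite exponent). Let `A` be a Noetherian local ring
in which `p` is regular of order `e0`, for instance a discrete valuation ring of characteristic `0`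
in which `p` has valuation `e0`. Let `ρ : G_F → GL_2(A)` be a continuous representation whose
reduction is the direct sum of the characters `χ_1` and `χ_2`, and whose restriction to `G_K` is
unramified and trivial modulo the `j`-th power of the maximal ideal.

If `p ^ t` kills the part of the unramified abelian `p`-extensions of `K` on which `G_F` acts through
`χ_1 χ_2⁻¹`, and `t * e0 < 2 * j`, then `ρ` is trivial on `G_K`. There is no condition on the other
parts of the class group of `K`.
-/

set_option autoImplicit false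

open NumberField IsLocalRing

namespace Pool.Agent.Results.MP_ca71b5_nt.TwoCharacters

/-- The inertia elements of the absolute Galois group of `F`: those which are in the inertia group
at a maximal ideal `P` of the ring of all algebraic integers. -/
def Inertia (F : Type) [Field F] : Set Gal(AlgebraicClosure F/F) :=
  {τ | ∃ P : Ideal (𝓞 (AlgebraicClosure F)), P.IsMaximal ∧
    ∀ x : 𝓞 (AlgebraicClosure F), τ • x - x ∈ P}

/-- The number field `F` has no extension of degree `p` which is Galois and unramified at all finite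
primes. -/
def NoUnramified (F : Type) [Field F] (p : ℕ) : Prop :=
  ∀ f : Gal(AlgebraicClosure F/F) →* Multiplicative (ZMod p),
    IsOpen (f.ker : Set Gal(AlgebraicClosure F/F)) → (∀ τ ∈ Inertia F, f τ = 1) → ∀ g, f g = 1

/-- `p ^ e` kills the Galois group of every finite abelian extension of `K` of `p`-power degree
which is unramified at all finite primes. -/
def AbelianExponent {F : Type} [Field F] (K : IntermediateField F (AlgebraicClosure F))
    (p e : ℕ) : Prop :=
  ∀ (E : Type) [CommGroup E] [Finite E], IsPGroup p E → ∀ f : K.fixingSubgroup →* E,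
    IsOpen (f.ker : Set K.fixingSubgroup) → (∀ τ : K.fixingSubgroup, ↑τ ∈ Inertia F → f τ = 1) →
      ∀ g, f g ^ (p ^ e) = 1

/-- The topology of the local ring `A` is the adic topology, and `p` is regular of order `e0 ≥ 1`: it
lies in the `e0`-th power of the maximal ideal, and its image in the graded ring of `A` is not a
zero divisor. -/
structure Coefficients (A : Type) [CommRing A] [IsLocalRing A] [TopologicalSpace A] (p e0 : ℕ) :
    Prop where
  adic : IsAdic (maximalIdeal A)
  pos : 1 ≤ e0
  mem : (p : A) ∈ maximalIdeal A ^ e0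
  regular : ∀ k : ℕ, ∀ x ∈ maximalIdeal A ^ k,
    (p : A) * x ∈ maximalIdeal A ^ (k + e0 + 1) → x ∈ maximalIdeal A ^ (k + 1)

/-- `f` is a homomorphism modulo the ideal `I`, with open kernel and unramified, from the absolute
Galois group of `K` to the additive group of the ring `A`, and `f (σ g σ⁻¹) = ψ(σ) f(g)` modulo
`I` for all `σ` in the absolute Galois group of `F`. -/
structure Eigen {F : Type} [Field F] [CharZero F] (K : IntermediateField F (AlgebraicClosure F))
    [IsGalois F K] {A : Type} [CommRing A] (I : Ideal A) (ψ : Gal(AlgebraicClosure F/F) → A)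
    (f : K.fixingSubgroup → A) : Prop where
  add : ∀ g h, f (g * h) - (f g + f h) ∈ I
  isOpen : IsOpen {g | f g ∈ I}
  unramified : ∀ τ : K.fixingSubgroup, ↑τ ∈ Inertia F → f τ ∈ I
  conj : ∀ (σ : Gal(AlgebraicClosure F/F)) (g : K.fixingSubgroup),
    f (MulAut.conjNormal σ g) - ψ σ * f g ∈ I

/-- `p ^ t` kills the part of the unramified abelian `p`-extensions of `K` on which the absolute
Galois group of `F` acts through the character `θ` with values in the residue field of `A`: it
kills, for all `M`, every unramified homomorphism with open kernel from the absolute Galois group of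
`K` to `A / m ^ M`, on which the absolute Galois group of `F` acts through a map `ψ` which reduces
to `θ`. -/
def EigenExponent {F : Type} [Field F] [CharZero F] (K : IntermediateField F (AlgebraicClosure F))
    [IsGalois F K] (p t : ℕ) {A : Type} [CommRing A] [IsLocalRing A]
    (θ : Gal(AlgebraicClosure F/F) →* (ResidueField A)ˣ) : Prop :=
  ∀ (M : ℕ) (ψ : Gal(AlgebraicClosure F/F) → A) (f : K.fixingSubgroup → A),
    (∀ σ, residue A (ψ σ) = θ σ) → Eigen K (maximalIdeal A ^ M) ψ f →
      ∀ g, (p : A) ^ t * f g ∈ maximalIdeal A ^ M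

/-- The reduction of `ρ` is the direct sum of `χ_1` and `χ_2`, and the restriction of `ρ` to the
absolute Galois group of `K` is unramified and trivial modulo the `j`-th power of the maximal
ideal. -/
structure NearlyTrivial {F : Type} [Field F] (K : IntermediateField F (AlgebraicClosure F))
    {A : Type} [CommRing A] [IsLocalRing A]
    (χ₁ χ₂ : Gal(AlgebraicClosure F/F) →* (ResidueField A)ˣ) (j : ℕ)
    (ρ : Gal(AlgebraicClosure F/F) →* GL (Fin 2) A) : Prop where
  reduction : ∀ σ, (ρ σ : Matrix (Fin 2) (Fin 2) A).map (residue A) =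
    !![(χ₁ σ : ResidueField A), 0; 0, (χ₂ σ : ResidueField A)]
  unramified : ∀ τ : K.fixingSubgroup, ↑τ ∈ Inertia F → ρ τ = 1
  trivial_mod : ∀ (g : K.fixingSubgroup) (a b : Fin 2),
    ((ρ g : Matrix (Fin 2) (Fin 2) A) - 1) a b ∈ maximalIdeal A ^ j

/-- the hypothesis on `F` for `F = ℚ` -/
theorem noUnramified_rat (p : ℕ) [Fact p.Prime] : NoUnramified ℚ p := by
  intro f hf hu g
  have : Finite (Multiplicative (ZMod p)) := inferInstanceAs (Finite (ZMod p))
  exact Pool.Agent.W215.FM.main (Multiplicative (ZMod p)) f hf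
    (fun P hP τ hτ => hu τ ⟨P, hP, hτ⟩) g

theorem main (p : ℕ) [Fact p.Prime] (F : Type) [Field F] [NumberField F]
    (hF : NoUnramified F p) (K : IntermediateField F (AlgebraicClosure F)) [FiniteDimensional F K]
    [IsGalois F K] (hK : ¬ p ∣ Module.finrank F K) (he : ∃ e, AbelianExponent K p e)
    (A : Type) [CommRing A] [IsLocalRing A] [IsNoetherianRing A] [TopologicalSpace A]
    (e0 : ℕ) (hA : Coefficients A p e0) (χ₁ χ₂ : Gal(AlgebraicClosure F/F) →* (ResidueField A)ˣ) (t j : ℕ)
    (ht : EigenExponent K p t (χ₁ * χ₂⁻¹)) (hj : t * e0 < 2 * j)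
    (ρ : Gal(AlgebraicClosure F/F) →* GL (Fin 2) A) (hρ : Continuous ρ)
    (h : NearlyTrivial K χ₁ χ₂ j ρ) :
    ∀ g : K.fixingSubgroup, ρ g = 1 := by
  obtain ⟨hχ, hur, htriv⟩ := h
  obtain ⟨hA, he0, hp1, hp2⟩ := hA
  have hp : Pool.Agent.W569.UF.RegOrd A p e0 := ⟨hp1, hp2⟩
  have hcG : CompactSpace Gal(AlgebraicClosure F/F) := inferInstance
  have hopen : IsOpen (K.fixingSubgroup : Set Gal(AlgebraicClosure F/F)) :=
    IntermediateField.fixingSubgroup_isOpen K
  have hfi : Finite (Gal(AlgebraicClosure F/F) ⧸ K.fixingSubgroup) :=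
    Subgroup.quotient_finite_of_isOpen _ hopen
  have hcH : CompactSpace K.fixingSubgroup := by
    have h1 : IsClosed (K.fixingSubgroup : Set Gal(AlgebraicClosure F/F)) :=
      Subgroup.isClosed_of_isOpen _ hopen
    exact isCompact_iff_compactSpace.1 h1.isCompact
  have hpA : (p : A) ∈ maximalIdeal A := by
    have h1 := Ideal.pow_le_pow_right he0 hp.1
    rwa [pow_one] at h1
  have hd : IsUnit ((Nat.card (Gal(AlgebraicClosure F/F) ⧸ K.fixingSubgroup) : ℕ) : A) := by
    rw [← Subgroup.index_eq_card, ← IntermediateField.finrank_eq_fixingSubgroup_index]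
    exact Pool.Agent.Q17.FL.isUnit_nat hpA hK
  have hchar : CharP (ResidueField A) p := by
    have h1 : ((p : ℕ) : ResidueField A) = 0 := by
      have := (residue_eq_zero_iff (p : A)).2 hpA
      rwa [map_natCast] at this
    exact (CharP.charP_iff_prime_eq_zero (Fact.out : p.Prime)).2 h1
  let Ur : Set K.fixingSubgroup := {τ | (τ : Gal(AlgebraicClosure F/F)) ∈ Inertia F}
  let χ : Fin 2 → Gal(AlgebraicClosure F/F) →* (ResidueField A)ˣ := ![χ₁, χ₂]
  -- the trivial character does not occur
  have hloop : ∀ a, ¬ Pool.Agent.Q17.FL.Arr (ResidueField A) K.fixingSubgroup Ur χ a a := by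
    rintro a ⟨f, h1, h2, ⟨g, hg⟩, h4⟩
    refine hg (Pool.Agent.Q17.FL.no_inv (p := p) hopen ?_ (Inertia F) ?_ hF (Ur := Ur)
      (fun h hh => hh) f h1 h2 (fun σ g => ?_) g)
    · rwa [← IntermediateField.finrank_eq_fixingSubgroup_index]
    · rintro τ ⟨P, hP, hτ⟩ m
      refine ⟨P, hP, ?_⟩
      induction m with
      | zero =>
        intro x
        rw [pow_zero, one_smul, sub_self]
        exact P.zero_mem
      | succ m ih =>
        intro x
        rw [pow_succ, mul_smul]
        have h5 := P.add_mem (ih (τ • x)) (hτ x)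
        rwa [sub_add_sub_cancel] at h5
    · have h5 := h4 σ g
      have h6 : (χ a σ : ResidueField A) ≠ 0 := Units.ne_zero _
      exact Multiplicative.toAdd.injective (mul_left_cancel₀ h6 h5)
  have hj1 : 1 ≤ j := by omega
  obtain ⟨e, he⟩ := he
  refine Pool.Agent.Q17.FL.feed_main (H := K.fixingSubgroup) (e := e) (t := t) (m := 2) hA hp hd
    (Ur := Ur) ?_ hj1 hj ρ hρ (fun τ hτ => hur τ hτ) htriv χ ?_ ?_ (fun a => a) ?_ ?_
  · intro M f hf hu g
    refine Pool.Agent.Q17.FL.kill_of_exp (e := e) hpA
      (Un := fun E _ f => ∀ τ : K.fixingSubgroup, (τ : Gal(AlgebraicClosure F/F)) ∈ Inertia F →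
        f τ = 1) ?_ he M f hf hu g
    intro E _ f hu τ hτ
    exact Subtype.ext (hu τ hτ)
  · intro σ a
    have h1 := congrFun (congrFun (hχ σ) a) a
    rw [Matrix.map_apply] at h1
    rw [h1]
    fin_cases a <;> rfl
  · intro σ a b hab
    have h1 := congrFun (congrFun (hχ σ) a) b
    rw [Matrix.map_apply] at h1
    rw [← residue_eq_zero_iff, h1]
    fin_cases a <;> fin_cases b <;> first | exact absurd rfl hab | rfl
  · intro a b hab hr i hi hi' hw
    have h2 : i = 2 := by omega
    subst h2
    obtain ⟨c, h3, d, h4, h5⟩ := hw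
    have h5' : d = b := h5
    subst h5'
    have h6 : a ≠ d := fun h => hloop a (h ▸ hab)
    have h7 : c ≠ a := fun h => hloop a (h ▸ h3)
    have h8 : c ≠ d := fun h => hloop c (h ▸ h4)
    omega
  · intro a b hab hr M ψ f hf hu hψ hf2 g
    have h6 : a ≠ b := fun h => hloop a (h ▸ hab)
    have ha : a = 0 := by omega
    have hb : b = 1 := by omega
    subst ha
    subst hb
    have hlift : ∀ g, ∃ x : A, Ideal.Quotient.mk (maximalIdeal A ^ M) x =
        Multiplicative.toAdd (f g) := fun g => Ideal.Quotient.mk_surjective _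
    choose F' hF' using hlift
    have h5 := ht M ψ F' (fun σ => ?_) ⟨fun g h => ?_, ?_, fun τ hτ => ?_,
      fun σ g => ?_⟩ g
    · rw [← hF', ← map_mul]
      exact Ideal.Quotient.eq_zero_iff_mem.2 h5
    · have h3 : (χ₂ σ : ResidueField A) * residue A (ψ σ) = χ₁ σ := hψ σ
      have h4 : residue A (ψ σ) = ((χ₂ σ)⁻¹ : (ResidueField A)ˣ) *
          ((χ₂ σ : ResidueField A) * residue A (ψ σ)) := by
        rw [← mul_assoc, ← Units.val_mul, inv_mul_cancel, Units.val_one, one_mul]
      rw [h4, h3, mul_comm, ← Units.val_mul]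
      rfl
    · rw [← Ideal.Quotient.mk_eq_mk_iff_sub_mem, map_add, hF', hF', hF', map_mul, toAdd_mul]
    · have h6 : {g | F' g ∈ maximalIdeal A ^ M} = (f.ker : Set K.fixingSubgroup) := by
        ext g
        show F' g ∈ maximalIdeal A ^ M ↔ f g = 1
        rw [← Ideal.Quotient.eq_zero_iff_mem, hF']
        exact Iff.rfl
      rw [h6]
      exact hf
    · rw [← Ideal.Quotient.eq_zero_iff_mem, hF', hu τ hτ]
      rfl
    · rw [← Ideal.Quotient.mk_eq_mk_iff_sub_mem, map_mul, hF', hF']
      exact hf2 σ g

/-- the statement of the theorem for the number field `F` -/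
def Rigid (F : Type) [Field F] [NumberField F] (p : ℕ) : Prop :=
  ∀ (K : IntermediateField F (AlgebraicClosure F)) [FiniteDimensional F K] [IsGalois F K],
    ¬ p ∣ Module.finrank F K → (∃ e, AbelianExponent K p e) →
    ∀ (A : Type) [CommRing A] [IsLocalRing A] [IsNoetherianRing A] [TopologicalSpace A]
      (e0 t j : ℕ), Coefficients A p e0 → t * e0 < 2 * j →
    ∀ χ₁ χ₂ : Gal(AlgebraicClosure F/F) →* (ResidueField A)ˣ,
      EigenExponent K p t (χ₁ * χ₂⁻¹) →
    ∀ ρ : Gal(AlgebraicClosure F/F) →* GL (Fin 2) A, Continuous ρ →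
      NearlyTrivial K χ₁ χ₂ j ρ → ∀ g : K.fixingSubgroup, ρ g = 1

/-- **Main theorem**, and its hypothesis on `F` for `F = ℚ`. -/
theorem result (p : ℕ) [Fact p.Prime] :
    (∀ (F : Type) [Field F] [NumberField F], NoUnramified F p → Rigid F p) ∧ NoUnramified ℚ p :=
  ⟨fun F _ _ hF K _ _ hK he A _ _ _ _ e0 t j hA hj χ₁ χ₂ ht ρ hρ h =>
    main p F hF K hK he A e0 hA χ₁ χ₂ t j ht hj ρ hρ h, noUnramified_rat p⟩

end Pool.Agent.Results.MP_ca71b5_nt.TwoCharacters
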